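import Pool.Agent.W2helper57.LD.Stm

/-!
# Project LD, pieces EDGE1 and EDGE2: moments of a pattern for a fixed planted set
-/

set_option autoImplicit false

open Pool.Agent.N602.PC Pool.Agent.W2helper57.LD

namespace Pool.Agent.W2helper88.LD

variable {n : ℕ}

/-- the edge joining `a` and `b`, as a set -/
def es (a b : Fin n) : Finset (Edge n) :=
  Finset.univ.filter fun e => (e.1.1 = a ∧ e.1.2 = b) ∨ (e.1.1 = b ∧ e.1.2 = a)

theorem mem_es {a b : Fin n} {e : Edge n} :
    e ∈ es a b ↔ (e.1.1 = a ∧ e.1.2 = b) ∨ (e.1.1 = b ∧ e.1.2 = a) := by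
  simp [es]

/-- the edge joining `a` and `b` -/
def ed (a b : Fin n) (h : a ≠ b) : Edge n :=
  if h' : a < b then ⟨(a, b), h'⟩ else ⟨(b, a), lt_of_le_of_ne (not_lt.mp h') h.symm⟩

theorem ed_mem (a b : Fin n) (h : a ≠ b) : ed a b h ∈ es a b := by
  rw [mem_es, ed]
  split_ifs with h'
  · exact Or.inl ⟨rfl, rfl⟩
  · exact Or.inr ⟨rfl, rfl⟩

theorem sg_eq (Y : Input n) (a b : Fin n) (h : a ≠ b) :
    sg Y a b = if Y (ed a b h) = true then 1 else -1 := by
  unfold sg ed
  by_cases h1 : a < b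
  · rw [dif_pos h1, dif_pos h1]
  · have h2 : b < a := lt_of_le_of_ne (not_lt.mp h1) h.symm
    rw [dif_neg h1, dif_neg h1, dif_pos h2]

theorem pl_ed (σ : Fin n → Bool) (Z : Input n) (a b : Fin n) (h : a ≠ b) :
    pl σ Z (ed a b h) = (Z (ed a b h) || (σ a && σ b)) := by
  unfold pl ed
  split_ifs with h1
  · rfl
  · rw [Bool.and_comm (σ a)]

theorem sg_pl (σ : Fin n → Bool) (Z : Input n) (a b : Fin n) (h : a ≠ b) :
    sg (pl σ Z) a b = if σ a = true ∧ σ b = true then 1 else sg Z a b := by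
  rw [sg_eq _ _ _ h, sg_eq _ _ _ h, pl_ed]
  rcases h1 : σ a <;> rcases h2 : σ b <;> simp

theorem sg_dep (σ : Fin n → Bool) {Z Z' : Input n} {a b : Fin n} (h : a ≠ b)
    (hZ : ∀ e ∈ es a b, Z e = Z' e) : sg (pl σ Z) a b = sg (pl σ Z') a b := by
  rw [sg_pl _ _ _ _ h, sg_pl _ _ _ _ h, sg_eq _ _ _ h, sg_eq _ _ _ h, hZ _ (ed_mem a b h)]

theorem sg_sq (Y : Input n) (a b : Fin n) : sg Y a b * sg Y a b = 1 := by
  unfold sg
  split_ifs <;> norm_num

theorem EQ_sg (a b : Fin n) (h : a ≠ b) : EQ (fun Z => sg Z a b) = 0 := by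
  unfold EQ
  rw [div_eq_zero_iff]
  left
  refine Finset.sum_involution (fun Z _ => Function.update Z (ed a b h) (!Z (ed a b h))) ?_ ?_ ?_ ?_
  · intro Z _
    rw [sg_eq _ _ _ h, sg_eq _ _ _ h, Function.update_self]
    rcases h1 : Z (ed a b h) <;> simp
  · intro Z _ _ h1
    have h2 := congrFun h1 (ed a b h)
    rw [Function.update_self] at h2
    simp at h2
  · intro Z _
    exact Finset.mem_univ _
  · intro Z _
    simp

theorem EQ_sg_pl (σ : Fin n → Bool) (a b : Fin n) (h : a ≠ b) :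
    EQ (fun Z => sg (pl σ Z) a b) = iv (σ a) * iv (σ b) := by
  simp only [sg_pl _ _ _ _ h]
  by_cases h1 : σ a = true ∧ σ b = true
  · simp only [if_pos h1, EQ_const, iv, if_pos h1.1, if_pos h1.2, mul_one]
  · simp only [if_neg h1, EQ_sg a b h, iv]
    rw [not_and_or] at h1
    rcases h1 with h1 | h1 <;> simp [h1]

/-- independence of two edges -/
theorem two (hI : S_IND) (hE : S_EQEW) (σ : Fin n → Bool) {a b a' b' : Fin n} (h : a ≠ b)
    (h' : a' ≠ b') (hd : Disjoint (es a b) (es a' b')) (φ ψ : ℝ → ℝ) :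
    EQ (fun Z => φ (sg (pl σ Z) a b) * ψ (sg (pl σ Z) a' b')) =
      EQ (fun Z => φ (sg (pl σ Z) a b)) * EQ (fun Z => ψ (sg (pl σ Z) a' b')) := by
  have key := hI (ι := Edge n) (κ := Bool) (fun _ _ => 1 / 2) (fun _ => by norm_num) Finset.univ
    (fun t => if t = true then es a b else es a' b') (by
      intro x _ y _ hxy
      rcases x <;> rcases y
      · exact absurd rfl hxy
      · simpa using hd.symm
      · simpa using hd
      · exact absurd rfl hxy)
    (fun t Z => if t = true then φ (sg (pl σ Z) a b) else ψ (sg (pl σ Z) a' b')) (by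
      intro x _ ω ω' hω
      rcases x
      · simp only [Bool.false_eq_true, if_false] at hω ⊢
        rw [sg_dep σ h' hω]
      · simp only [if_true] at hω ⊢
        rw [sg_dep σ h hω])
  rw [Fintype.prod_bool] at key
  simp only [Fintype.prod_bool, if_true, Bool.false_eq_true, if_false] at key
  rw [hE.1 n, hE.1 n, hE.1 n]
  exact key

section slots

variable {v N : ℕ}

/-- the slots of a pattern: root-centre, centre-leaf, leaf-leaf -/
abbrev Slot (v : ℕ) : Type := Option (Fin v) ⊕ (Fin v × Fin v)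

/-- the end points of the pair of a slot -/
def sa (r : Fin n) (u : Fin (v + 1) → Fin N → Fin n) (g : Fin (v + 1) → Fin N) :
    Slot v → Fin n × Fin n
  | Sum.inl none => (r, u 0 (g 0))
  | Sum.inl (some j) => (u 0 (g 0), u j.succ (g j.succ))
  | Sum.inr x => (u x.1.succ (g x.1.succ), u x.2.succ (g x.2.succ))

/-- the factor of a slot as a function of the sign -/
def sb : Slot v → ℝ → ℝ
  | Sum.inl _ => fun t => t
  | Sum.inr _ => fun t => 1 + t

/-- the classes of the end points -/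
def cl : Slot v → Option (Fin (v + 1)) × Option (Fin (v + 1))
  | Sum.inl none => (none, some 0)
  | Sum.inl (some j) => (some 0, some j.succ)
  | Sum.inr x => (some x.1.succ, some x.2.succ)

/-- the slots which occur -/
def B (v : ℕ) : Finset (Slot v) := (Finset.univ : Finset (Option (Fin v))).disjSum (prs v)

theorem prod_B (f : Slot v → ℝ) : ∏ s ∈ B v, f s =
    f (Sum.inl none) * (∏ j, f (Sum.inl (some j))) * ∏ x ∈ prs v, f (Sum.inr x) := by
  rw [B, Finset.prod_disjSum, Fintype.prod_option]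

theorem Fg_eq (r : Fin n) (u : Fin (v + 1) → Fin N → Fin n) (g : Fin (v + 1) → Fin N)
    (Y : Input n) : Fg r u g Y = ∏ s ∈ B v, sb s (sg Y (sa r u g s).1 (sa r u g s).2) := by
  rw [prod_B]
  rfl

theorem mem_inr {x : Fin v × Fin v} (h : Sum.inr x ∈ B v) : x.1 < x.2 := by
  rw [B, Finset.inr_mem_disjSum, prs, Finset.mem_filter] at h
  exact h.2

theorem cl_inj {s s' : Slot v} (hs : s ∈ B v) (hs' : s' ∈ B v)
    (h : cl s = cl s' ∨ cl s = ((cl s').2, (cl s').1)) : s = s' := by
  rcases s with (_ | j) | x <;> rcases s' with (_ | j') | x' <;>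
    simp only [cl, Prod.mk.injEq, Option.some.injEq, Fin.succ_inj, reduceCtorEq, false_and,
      and_false, or_false, true_and, and_true, Fin.succ_ne_zero] at h ⊢
  · rw [h]
  · rcases h with h | h
    · exact absurd h.1.symm (Fin.succ_ne_zero _)
    · exact absurd h.1.symm (Fin.succ_ne_zero _)
  · have h1 := mem_inr hs
    have h2 := mem_inr hs'
    rcases h with h | h
    · rw [Sum.inr.injEq]
      exact Prod.ext h.1 h.2
    · rw [h.1, h.2] at h1
      exact absurd h1 (not_lt.mpr h2.le)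

theorem cl_ne {s : Slot v} (hs : s ∈ B v) : (cl s).1 ≠ (cl s).2 := by
  rcases s with (_ | j) | x
  · simp [cl]
  · simp only [cl, ne_eq, Option.some.injEq]
    exact (Fin.succ_ne_zero _).symm
  · simp only [cl, ne_eq, Option.some.injEq, Fin.succ_inj]
    exact (mem_inr hs).ne

variable {r : Fin n} {u : Fin (v + 1) → Fin N → Fin n}

open Classical in
/-- the class of a vertex -/
noncomputable def lab (u : Fin (v + 1) → Fin N → Fin n) (y : Fin n) : Option (Fin (v + 1)) :=
  if h : ∃ i m, u i m = y then some h.choose else none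

theorem lab_u (hG : Good r u) (i : Fin (v + 1)) (m : Fin N) : lab u (u i m) = some i := by
  have h : ∃ i' m', u i' m' = u i m := ⟨i, m, rfl⟩
  rw [lab, dif_pos h]
  obtain ⟨m', hm'⟩ := h.choose_spec
  rw [(hG.inj _ _ _ _ hm').1]

theorem lab_r (hG : Good r u) : lab u r = none := by
  rw [lab, dif_neg]
  rintro ⟨i, m, h⟩
  exact hG.ne i m h

theorem lab_sa (hG : Good r u) (g : Fin (v + 1) → Fin N) (s : Slot v) :
    (lab u (sa r u g s).1, lab u (sa r u g s).2) = cl s := by
  rcases s with (_ | j) | x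
  · simp [sa, cl, lab_u hG, lab_r hG]
  · simp [sa, cl, lab_u hG]
  · simp [sa, cl, lab_u hG]

theorem sa_ne (hG : Good r u) (g : Fin (v + 1) → Fin N) {s : Slot v} (hs : s ∈ B v) :
    (sa r u g s).1 ≠ (sa r u g s).2 := by
  intro h
  have h1 := lab_sa hG g s
  rw [h] at h1
  have h2 := cl_ne hs
  rw [← h1] at h2
  exact h2 rfl

theorem disj (hG : Good r u) (g g' : Fin (v + 1) → Fin N) {s s' : Slot v} (hs : s ∈ B v)
    (hs' : s' ∈ B v) (h : s ≠ s') :
    Disjoint (es (sa r u g s).1 (sa r u g s).2) (es (sa r u g' s').1 (sa r u g' s').2) := by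
  rw [Finset.disjoint_left]
  intro e h1 h2
  apply h
  apply cl_inj hs hs'
  have e1 := lab_sa hG g s
  have e2 := lab_sa hG g' s'
  rw [mem_es] at h1 h2
  rw [← e1, ← e2]
  rcases h1 with ⟨h1, h1'⟩ | ⟨h1, h1'⟩ <;> rcases h2 with ⟨h2, h2'⟩ | ⟨h2, h2'⟩ <;>
    simp only [← h1, ← h1', ← h2, ← h2', true_or, or_true]

theorem disj_same (hG : Good r u) (g g' : Fin (v + 1) → Fin N) {s : Slot v} (hs : s ∈ B v)
    (h : sa r u g s ≠ sa r u g' s) :
    Disjoint (es (sa r u g s).1 (sa r u g s).2) (es (sa r u g' s).1 (sa r u g' s).2) := by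
  rw [Finset.disjoint_left]
  intro e h1 h2
  have e1 := lab_sa hG g s
  have e2 := lab_sa hG g' s
  have hn := cl_ne hs
  rw [mem_es] at h1 h2
  rcases h1 with ⟨h1, h1'⟩ | ⟨h1, h1'⟩ <;> rcases h2 with ⟨h2, h2'⟩ | ⟨h2, h2'⟩
  · exact h (Prod.ext (h1.symm.trans h2) (h1'.symm.trans h2'))
  · rw [← h1, ← h1'] at e1
    rw [← h2, ← h2', ← e1, Prod.mk.injEq] at e2
    rw [← e1] at hn
    exact hn e2.1.symm
  · rw [← h1, ← h1'] at e1
    rw [← h2, ← h2', ← e1, Prod.mk.injEq] at e2
    rw [← e1] at hn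
    exact hn e2.1.symm
  · exact h (Prod.ext (h1'.symm.trans h2') (h1.symm.trans h2))

/-- independence of the slots, for a product of one pattern -/
theorem indep1 (hI : S_IND) (hE : S_EQEW) (hG : Good r u) (σ : Fin n → Bool)
    (g : Fin (v + 1) → Fin N) :
    EQ (fun Z => Fg r u g (pl σ Z)) =
      ∏ s ∈ B v, EQ (fun Z => sb s (sg (pl σ Z) (sa r u g s).1 (sa r u g s).2)) := by
  have key := hI (ι := Edge n) (κ := Slot v) (fun _ _ => 1 / 2) (fun _ => by norm_num) (B v)
    (fun s => es (sa r u g s).1 (sa r u g s).2)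
    (fun x hx y hy hxy => disj hG g g hx hy hxy)
    (fun s Z => sb s (sg (pl σ Z) (sa r u g s).1 (sa r u g s).2)) (by
      intro x hx ω ω' hω
      show sb x _ = sb x _
      rw [sg_dep σ (sa_ne hG g hx) hω])
  rw [hE.1 n]
  simp only [Fg_eq, hE.1 n]
  exact key

/-- independence of the slots, for a product of two patterns -/
theorem indep2 (hI : S_IND) (hE : S_EQEW) (hG : Good r u) (σ : Fin n → Bool)
    (g g' : Fin (v + 1) → Fin N) :
    EQ (fun Z => Fg r u g (pl σ Z) * Fg r u g' (pl σ Z)) =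
      ∏ s ∈ B v, EQ (fun Z => sb s (sg (pl σ Z) (sa r u g s).1 (sa r u g s).2) *
        sb s (sg (pl σ Z) (sa r u g' s).1 (sa r u g' s).2)) := by
  have key := hI (ι := Edge n) (κ := Slot v) (fun _ _ => 1 / 2) (fun _ => by norm_num) (B v)
    (fun s => es (sa r u g s).1 (sa r u g s).2 ∪ es (sa r u g' s).1 (sa r u g' s).2)
    (fun x hx y hy hxy => by
      show Disjoint (_ ∪ _) (_ ∪ _)
      rw [Finset.disjoint_union_left, Finset.disjoint_union_right, Finset.disjoint_union_right]
      exact ⟨⟨disj hG g g hx hy hxy, disj hG g g' hx hy hxy⟩,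
        ⟨disj hG g' g hx hy hxy, disj hG g' g' hx hy hxy⟩⟩)
    (fun s Z => sb s (sg (pl σ Z) (sa r u g s).1 (sa r u g s).2) *
      sb s (sg (pl σ Z) (sa r u g' s).1 (sa r u g' s).2)) (by
      intro x hx ω ω' hω
      show sb x _ * sb x _ = sb x _ * sb x _
      rw [sg_dep σ (sa_ne hG g hx) (fun e he => hω e (Finset.mem_union_left _ he)),
        sg_dep σ (sa_ne hG g' hx) (fun e he => hω e (Finset.mem_union_right _ he))])
  rw [hE.1 n]
  simp only [Fg_eq, hE.1 n, ← Finset.prod_mul_distrib]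
  exact key

/-- the expectation of one slot -/
theorem E_slot (hG : Good r u) (σ : Fin n → Bool) (g : Fin (v + 1) → Fin N) {s : Slot v}
    (hs : s ∈ B v) :
    EQ (fun Z => sb s (sg (pl σ Z) (sa r u g s).1 (sa r u g s).2)) =
      sb s (iv (σ (sa r u g s).1) * iv (σ (sa r u g s).2)) := by
  have h := EQ_sg_pl σ _ _ (sa_ne hG g hs)
  rcases s with s | x
  · exact h
  · show EQ (fun Z => 1 + _) = 1 + _
    rw [EQ_add, EQ_const, h]

/-- the expectation of the product in one slot, different pairs -/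
theorem E_slot_ne (hI : S_IND) (hE : S_EQEW) (hG : Good r u) (σ : Fin n → Bool)
    (g g' : Fin (v + 1) → Fin N) {s : Slot v} (hs : s ∈ B v) (h : sa r u g s ≠ sa r u g' s) :
    EQ (fun Z => sb s (sg (pl σ Z) (sa r u g s).1 (sa r u g s).2) *
        sb s (sg (pl σ Z) (sa r u g' s).1 (sa r u g' s).2)) =
      sb s (iv (σ (sa r u g s).1) * iv (σ (sa r u g s).2)) *
        sb s (iv (σ (sa r u g' s).1) * iv (σ (sa r u g' s).2)) := by
  rw [two hI hE σ (sa_ne hG g hs) (sa_ne hG g' hs) (disj_same hG g g' hs h) (sb s) (sb s),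
    E_slot hG σ g hs, E_slot hG σ g' hs]

theorem mem_inl (o : Option (Fin v)) : (Sum.inl o : Slot v) ∈ B v := by
  rw [B, Finset.inl_mem_disjSum]
  exact Finset.mem_univ _

theorem mem_inr' {x : Fin v × Fin v} (h : x ∈ prs v) : (Sum.inr x : Slot v) ∈ B v := by
  rw [B, Finset.inr_mem_disjSum]
  exact h

theorem iv_mul_self (b : Bool) : iv b * iv b = iv b := by
  unfold iv
  split_ifs <;> norm_num

end slots

/-- **Piece EDGE1.** -/
theorem edge1 (hI : S_IND) (hE : S_EQEW) : S_EDGE1 := by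
  intro n v N r u hG σ g
  rw [indep1 hI hE hG σ g, Finset.prod_congr rfl fun s hs => E_slot hG σ g hs, prod_B]
  rfl

/-- **Piece EDGE2.** -/
theorem edge2 (hI : S_IND) (hE : S_EQEW) : S_EDGE2 := by
  intro n v N r u hG σ g g'
  rw [indep2 hI hE hG σ g g', prod_B]
  congr 1
  · congr 1
    · -- root-centre
      by_cases h : g 0 = g' 0
      · rw [Rf, if_pos h]
        have : ∀ Z : Input n, sb (Sum.inl none : Slot v)
            (sg (pl σ Z) (sa r u g (Sum.inl none)).1 (sa r u g (Sum.inl none)).2) *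
            sb (Sum.inl none : Slot v)
            (sg (pl σ Z) (sa r u g' (Sum.inl none)).1 (sa r u g' (Sum.inl none)).2) = 1 := by
          intro Z
          show sg (pl σ Z) r (u 0 (g 0)) * sg (pl σ Z) r (u 0 (g' 0)) = 1
          rw [h, sg_sq]
        simp only [this, EQ_const]
      · rw [Rf, if_neg h, E_slot_ne hI hE hG σ g g' (mem_inl none) (fun h' =>
          h (hG.inj _ _ _ _ (Prod.mk.inj h').2).2)]
        show iv (σ r) * iv (σ (u 0 (g 0))) * (iv (σ r) * iv (σ (u 0 (g' 0)))) = _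
        have := iv_mul_self (σ r)
        linear_combination (iv (σ (u 0 (g 0))) * iv (σ (u 0 (g' 0)))) * this
    · -- centre-leaf
      refine Finset.prod_congr rfl fun j _ => ?_
      by_cases h : g 0 = g' 0 ∧ g j.succ = g' j.succ
      · rw [Lf, if_pos h]
        have : ∀ Z : Input n, sb (Sum.inl (some j) : Slot v)
            (sg (pl σ Z) (sa r u g (Sum.inl (some j))).1 (sa r u g (Sum.inl (some j))).2) *
            sb (Sum.inl (some j) : Slot v)
            (sg (pl σ Z) (sa r u g' (Sum.inl (some j))).1 (sa r u g' (Sum.inl (some j))).2) =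
              1 := by
          intro Z
          show sg (pl σ Z) (u 0 (g 0)) (u j.succ (g j.succ)) *
            sg (pl σ Z) (u 0 (g' 0)) (u j.succ (g' j.succ)) = 1
          rw [h.1, h.2, sg_sq]
        simp only [this, EQ_const]
      · rw [Lf, if_neg h, E_slot_ne hI hE hG σ g g' (mem_inl (some j)) (fun h' =>
          h ⟨(hG.inj _ _ _ _ (Prod.mk.inj h').1).2, (hG.inj _ _ _ _ (Prod.mk.inj h').2).2⟩)]
        rfl
  · -- leaf-leaf
    refine Finset.prod_congr rfl fun x hx => ?_
    by_cases h : g x.1.succ = g' x.1.succ ∧ g x.2.succ = g' x.2.succ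
    · rw [Pf, if_pos h]
      have h1 : ∀ Z : Input n, sb (Sum.inr x : Slot v)
          (sg (pl σ Z) (sa r u g (Sum.inr x)).1 (sa r u g (Sum.inr x)).2) *
          sb (Sum.inr x : Slot v)
          (sg (pl σ Z) (sa r u g' (Sum.inr x)).1 (sa r u g' (Sum.inr x)).2) =
            2 + 2 * sg (pl σ Z) (sa r u g (Sum.inr x)).1 (sa r u g (Sum.inr x)).2 := by
        intro Z
        show (1 + sg (pl σ Z) (u x.1.succ (g x.1.succ)) (u x.2.succ (g x.2.succ))) *
          (1 + sg (pl σ Z) (u x.1.succ (g' x.1.succ)) (u x.2.succ (g' x.2.succ))) =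
          2 + 2 * sg (pl σ Z) (u x.1.succ (g x.1.succ)) (u x.2.succ (g x.2.succ))
        rw [h.1, h.2]
        have := sg_sq (pl σ Z) (u x.1.succ (g' x.1.succ)) (u x.2.succ (g' x.2.succ))
        linear_combination this
      simp only [h1]
      rw [EQ_add, EQ_const, EQ_const_mul, EQ_sg_pl σ _ _ (sa_ne hG g (mem_inr' hx))]
      rfl
    · rw [Pf, if_neg h, E_slot_ne hI hE hG σ g g' (mem_inr' hx) (fun h' =>
        h ⟨(hG.inj _ _ _ _ (Prod.mk.inj h').1).2, (hG.inj _ _ _ _ (Prod.mk.inj h').2).2⟩)]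
      rfl

end Pool.Agent.W2helper88.LD
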